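import Mathlib
import Pool.Agent.N70.ES.Stm2

/-!
A splitting over a subgroup induces a splitting of a twisted alternating fibre power of degree the
index.
-/

set_option autoImplicit false

namespace Pool.Agent.N530.ES

open Pool.Agent.H391R2 Pool.Agent.Y793 Pool.Agent.N70.ES

section ind

variable {H B : Type} [Group H] [Group B] (a : B →* H) (U : Subgroup H) (s : U →* B)
  (hs : ∀ u, a (s u) = u) (t : H → B) (ht : ∀ h, a (t h) = h) {N : ℕ} (f : H ⧸ U ≃ Fin N)

/-- the action on the numbered cosets -/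
def actP : H →* Equiv.Perm (Fin N) where
  toFun h := (f.symm.trans (MulAction.toPerm h)).trans f
  map_one' := by
    ext i
    simp
  map_mul' h h' := by
    ext i
    simp [mul_smul]

theorem actP_apply (h : H) (i : Fin N) : actP U f h i = f (h • f.symm i) := rfl

theorem actP_inv_apply (h : H) (i : Fin N) : (actP U f h)⁻¹ i = f (h⁻¹ • f.symm i) := by
  rw [← map_inv]
  rfl

/-- the element of the subgroup -/
noncomputable def elU (h : H) (d : H ⧸ U) : U :=
  ⟨(Quotient.out d)⁻¹ * (h * Quotient.out (h⁻¹ • d)), by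
    rw [← QuotientGroup.eq]
    have h1 : ((Quotient.out (h⁻¹ • d) : H) : H ⧸ U) = h⁻¹ • d := QuotientGroup.out_eq' _
    have h2 : ((h * Quotient.out (h⁻¹ • d) : H) : H ⧸ U) =
        h • ((Quotient.out (h⁻¹ • d) : H) : H ⧸ U) := rfl
    rw [h2, h1, smul_inv_smul]
    exact QuotientGroup.out_eq' _⟩

theorem elU_mul (h h' : H) (d : H ⧸ U) : elU U (h * h') d = elU U h d * elU U h' (h⁻¹ • d) := by
  apply Subtype.ext
  change (Quotient.out d)⁻¹ * (h * h' * Quotient.out ((h * h')⁻¹ • d)) =
    (Quotient.out d)⁻¹ * (h * Quotient.out (h⁻¹ • d)) *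
      ((Quotient.out (h⁻¹ • d))⁻¹ * (h' * Quotient.out (h'⁻¹ • h⁻¹ • d)))
  rw [mul_inv_rev, mul_smul]
  group

/-- the labels -/
noncomputable def lab (h : H) (d : H ⧸ U) : B :=
  t (Quotient.out d) * s (elU U h d) * (t (Quotient.out (h⁻¹ • d)))⁻¹

include hs ht in
theorem a_lab (h : H) (d : H ⧸ U) : a (lab U s t h d) = h := by
  unfold lab
  rw [map_mul, map_mul, map_inv, hs, ht, ht]
  change Quotient.out d * ((Quotient.out d)⁻¹ * (h * Quotient.out (h⁻¹ • d))) *
    (Quotient.out (h⁻¹ • d))⁻¹ = h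
  group

theorem lab_mul (h h' : H) (d : H ⧸ U) :
    lab U s t (h * h') d = lab U s t h d * lab U s t h' (h⁻¹ • d) := by
  unfold lab
  rw [elU_mul, map_mul, mul_inv_rev h h', mul_smul]
  group

/-- the section -/
noncomputable def sec : H →* AltTw a (Equiv.Perm.sign.comp (actP U f)) N where
  toFun h := ⟨(⟨fun i => lab U s t h (f.symm i), actP U f h⟩, h),
    Subgroup.mem_inf.2 ⟨fun i => a_lab a U s hs t ht h (f.symm i), rfl⟩⟩
  map_one' := by
    apply Subtype.ext
    refine Prod.ext (SemidirectProduct.ext ?_ (map_one (actP U f))) rfl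
    funext i
    change lab U s t 1 (f.symm i) = 1
    have h1 := lab_mul U s t 1 1 (f.symm i)
    rw [mul_one, inv_one, one_smul] at h1
    exact left_eq_mul.1 h1
  map_mul' h h' := by
    apply Subtype.ext
    refine Prod.ext (SemidirectProduct.ext ?_ (map_mul (actP U f) h h')) rfl
    funext i
    change lab U s t (h * h') (f.symm i) =
      lab U s t h (f.symm i) * lab U s t h' (f.symm ((actP U f h)⁻¹ i))
    rw [actP_inv_apply, Equiv.symm_apply_apply, lab_mul]

end ind

/-- GI: induction from a subgroup. -/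
theorem t_gi : St_gi := by
  intro H B _ _ _ a ha U s hs
  choose t ht using ha
  have f : H ⧸ U ≃ Fin U.index := Finite.equivFinOfCardEq rfl
  exact ⟨Equiv.Perm.sign.comp (actP U f), sec a U s hs t ht f, fun _ => rfl⟩

end Pool.Agent.N530.ES
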